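import Mathlib

set_option autoImplicit false

namespace Pool.Agent.Results.MP_abbe90_al.Yes

open TensorProduct Coalgebra

section
variable (k C : Type) [Field k] [AddCommGroup C] [Module k C] [Coalgebra k C]

/-- `(C, o, r)` is a rack bialgebra, `r (x ⊗ y) = x ◁ y`. -/
def Rack (o : C) (r : C ⊗[k] C →ₗc[k] C) : Prop :=
  IsGroupLikeElem k o ∧ (∀ x y z, r (r (x ⊗ₜ y) ⊗ₜ z) =
    r (map (r : C ⊗[k] C →ₗ[k] C) r (tensorTensorTensorComm k C C C C ((x ⊗ₜ y) ⊗ₜ comul z)))) ∧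
  (∀ x, r (x ⊗ₜ o) = x) ∧ (∀ x, r (o ⊗ₜ x) = counit (R := k) x • o) ∧
  ∀ x y, counit (R := k) (r (x ⊗ₜ y)) = counit x * counit y

/-- `(C, o, r)` is a Yetter-Drinfel'd rack over `H`, with right action `ρ`. -/
def YD (o : C) (r : C ⊗[k] C →ₗc[k] C) (H : Type) [Ring H] [Bialgebra k H] : Prop :=
  ∃ (ρ : C ⊗[k] H →ₗc[k] C) (q : C →ₗc[k] H), (∀ x, ρ (x ⊗ₜ 1) = x) ∧
    (∀ x g h, ρ (x ⊗ₜ (g * h)) = ρ (ρ (x ⊗ₜ g) ⊗ₜ h)) ∧ q o = 1 ∧
    (∀ a b, r (a ⊗ₜ b) = ρ (a ⊗ₜ q b)) ∧ ∀ a h, LinearMap.mul' k H (LinearMap.lTensor H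
      ((q : C →ₗ[k] H) ∘ₗ (ρ : C ⊗[k] H →ₗ[k] C) ∘ₗ mk k C H a) (comul h)) = q a * h
end

/-- basis `1, a, z, y, w, b` -/
def C : Type := Fin 6 → ℚ

instance : AddCommGroup C := Pi.addCommGroup
instance : Module ℚ C := Pi.module _ _ _

def e (i : Fin 6) : C := Pi.single i 1
def p (i : Fin 6) : C →ₗ[ℚ] ℚ := LinearMap.proj i

lemma pe (i j : Fin 6) : p i (e j) = if i = j then 1 else 0 := Pi.single_apply _ _ _

noncomputable def d : C →ₗ[ℚ] C ⊗[ℚ] C := mk ℚ C C (e 0) + (mk ℚ C C).flip (e 0) -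
  (p 0).smulRight (e 0 ⊗ₜ e 0) + (p 5).smulRight (e 3 ⊗ₜ e 2)

lemma da (x : C) : d x = e 0 ⊗ₜ x + x ⊗ₜ e 0 - p 0 x • e 0 ⊗ₜ e 0 + p 5 x • e 3 ⊗ₜ e 2 := rfl

noncomputable instance : Coalgebra ℚ C where
  comul := d
  counit := p 0
  coassoc := by
    ext x
    simp [da, pe, tmul_add, add_tmul, tmul_sub, sub_tmul, smul_tmul']
    simp only [← smul_tmul', tmul_smul]
    module
  rTensor_counit_comp_comul := by ext x; simp [da, pe, smul_tmul']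
  lTensor_counit_comp_comul := by ext x; simp [da, pe, ← tmul_smul]

noncomputable def m : C →ₗ[ℚ] C →ₗ[ℚ] C := ((p 0).smulRight LinearMap.id + (p 1).smulRight
  ((p 2).smulRight (e 2) + (p 5).smulRight (e 5)) - (p 2).smulRight ((p 1).smulRight (e 2)) +
  (p 3).smulRight ((p 4).smulRight (e 4))).flip

lemma ma (x y : C) : m x y = p 0 y • x + p 1 y • (p 2 x • e 2 + p 5 x • e 5) - p 2 y • p 1 x • e 2 +
    p 3 y • p 4 x • e 4 := rfl

lemma cm (x : C) : comul x = d x := rfl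
lemma cu (x : C) : counit x = p 0 x := rfl

noncomputable def r : C ⊗[ℚ] C →ₗc[ℚ] C where
  toLinearMap := lift m
  counit_comp := by ext x y; simp [ma, cu, pe, mul_comm]
  map_comp_comul := by
    ext x y
    simp [cm, da, ma, pe, tmul_add, add_tmul, tmul_sub, sub_tmul, ← smul_tmul', tmul_smul]
    module

lemma ra (x y : C) : r (x ⊗ₜ y) = m x y := rfl

theorem result : ∃ (k C : Type) (_ : Field k) (_ : AddCommGroup C) (_ : Module k C)
    (_ : Coalgebra k C) (o : C) (r : C ⊗[k] C →ₗc[k] C), Rack k C o r ∧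
    ∀ (H : Type) [Ring H] [Bialgebra k H], ¬ YD k C o r H := by
  refine ⟨ℚ, C, inferInstance, inferInstance, inferInstance, inferInstance, e 0, r,
    ⟨⟨by simp [cu, pe], by simp [cm, da, pe]⟩, fun x y z => ?_, fun x => by simp [ra, ma, pe],
    fun x => by simp [ra, ma, pe, cu], fun x y => by simp [ra, ma, pe, cu, mul_comm]⟩,
    fun H _ _ ⟨ρ, q, _, _, h1, h2, h3⟩ => ?_⟩
  · simp [cm, da, ra, ma, pe, tmul_add, add_tmul, tmul_sub, sub_tmul, ← smul_tmul', tmul_smul]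
    module
  have c : ∀ i, comul (q (e i)) = map (q : C →ₗ[ℚ] H) q (d (e i)) := fun i =>
    (CoalgHomClass.map_comp_comul_apply q _).symm
  have a := h3 (e 1) (q (e 5))
  have b := h3 (e 5) (q (e 1))
  have o : ∀ x, ρ (x ⊗ₜ 1) = x := ‹_›
  have c2 := c 2
  have c3 := c 3
  have c5 := c 5
  simp [c, da, pe, h1, ← h2, ra, ma, o] at a b
  simp [da, pe, h1] at c2 c3 c5
  have : q (e 5) = q (e 3) * q (e 2) := by linear_combination (norm := noncomm_ring) a + b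
  rw [this, Bialgebra.comul_mul, c2, c3] at c5
  have : q (e 2) ⊗ₜ[ℚ] q (e 3) = 0 := by
    simp only [mul_add, add_mul, Algebra.TensorProduct.tmul_mul_tmul, mul_one, one_mul] at c5
    linear_combination (norm := abel_nf) c5
  have := congrArg (LinearMap.mul' ℚ ℚ ∘ₗ map (p 2 ∘ₗ (ρ : C ⊗[ℚ] H →ₗ[ℚ] C) ∘ₗ mk ℚ C H (e 1))
    (p 4 ∘ₗ (ρ : C ⊗[ℚ] H →ₗ[ℚ] C) ∘ₗ mk ℚ C H (e 4))) this
  simp [← h2, ra, ma, pe] at this

end Pool.Agent.Results.MP_abbe90_al.Yes
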